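import Pool.Agent.W695.KH.Defs

/-!
# The gradient of a Gaussian average

`Nn σ v x = E v(x + σ G)` for a bounded Lipschitz `v`: it is `C¹`, the gradient is bounded by the
Lipschitz constant `L` of `v`, is `(L / σ)`-Lipschitz, and its square is controlled by the variance.
-/

set_option autoImplicit false

namespace Pool.Agent.W327.KH

open MeasureTheory Set Filter Topology
open scoped ENNReal InnerProductSpace
open Pool.Agent.W695.KH

section aux

variable {κ : Type} [Fintype κ]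

theorem ptd (c : ℝ) (u p : Eu κ) :
    HasFDerivAt (fun p : Eu κ => c * Real.exp (-(‖u - p‖ ^ 2 / 2)))
      ((c * Real.exp (-(‖u - p‖ ^ 2 / 2))) • innerSL ℝ (u - p)) p := by
  have h1 : HasFDerivAt (fun p : Eu κ => u - p)
      (-ContinuousLinearMap.id ℝ (Eu κ)) p := (hasFDerivAt_id p).const_sub u
  have h2 := h1.norm_sq
  have h3 := (((h2.mul_const (2 : ℝ)⁻¹).neg).exp).const_mul c
  have e : (fun p : Eu κ => c * Real.exp (-(‖u - p‖ ^ 2 / 2))) =
      fun p => c * Real.exp (-(‖u - p‖ ^ 2 * (2 : ℝ)⁻¹)) := by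
    funext z
    rw [div_eq_mul_inv]
  rw [e]
  refine h3.congr_fderiv ?_
  ext w
  simp only [_root_.smul_apply, _root_.neg_apply,
    ContinuousLinearMap.comp_apply, ContinuousLinearMap.id_apply, innerSL_apply_apply,
    smul_eq_mul, map_neg]
  rw [div_eq_mul_inv]
  simp
  ring

theorem int_eight (p : Eu κ) : Integrable fun u : Eu κ => Real.exp (-(‖u - p‖ ^ 2 / 8)) := by
  have h := (GaussianFourier.integrable_cexp_neg_mul_sq_norm_add (V := Eu κ) (b := (1 / 8 : ℂ))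
    (by norm_num) 0 0).norm
  have h2 : Integrable fun u : Eu κ => Real.exp (-(‖u‖ ^ 2 / 8)) := by
    refine h.congr (Filter.Eventually.of_forall fun u => ?_)
    simp only [Complex.norm_exp]
    congr 1
    have : (-(1 / 8 : ℂ) * (‖u‖ : ℂ) ^ 2 + 0 * ((⟪(0 : Eu κ), u⟫_ℝ : ℝ) : ℂ)) =
      ((-(‖u‖ ^ 2 / 8) : ℝ) : ℂ) := by
      push_cast
      ring
    rw [this, Complex.ofReal_re]
  exact h2.comp_sub_right p

theorem cs {A B C : ℝ} (h : ∀ l : ℝ, 0 ≤ A - 2 * l * B + l ^ 2 * C) : B ^ 2 ≤ A * C := by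
  have := discrim_le_zero (a := C) (b := -2 * B) (c := A) (fun l => by
    have := h l
    nlinarith)
  unfold discrim at this
  nlinarith

/-- consequences of the Gaussian facts in a fixed dimension -/
structure GF (κ : Type) [Fintype κ] : Prop where
  pos : ∀ w : Eu κ, 0 < ga w
  cont : Continuous (ga (κ := κ))
  int : ∀ k : ℕ, Integrable fun w : Eu κ => ‖w‖ ^ k * ga w
  one : ∫ w : Eu κ, ga w = 1
  mean : ∀ a : Eu κ, ∫ w : Eu κ, ⟪a, w⟫_ℝ * ga w = 0
  cov : ∀ a b : Eu κ, ∫ w : Eu κ, ⟪a, w⟫_ℝ * ⟪b, w⟫_ℝ * ga w = ⟪a, b⟫_ℝ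

theorem GF.of (h : S_gauss) : GF κ :=
  ⟨(h κ).1, (h κ).2.1, (h κ).2.2.2.1, (h κ).2.2.2.2.1, (h κ).2.2.2.2.2.1, (h κ).2.2.2.2.2.2⟩

theorem GF.intg (g : GF κ) {F : Eu κ → ℝ} (hF : Continuous F) {C : ℝ}
    (hb : ∀ w, |F w| ≤ C * (1 + ‖w‖ ^ 2)) : Integrable fun w => F w * ga w := by
  have h0 : Integrable fun w : Eu κ => C * (‖w‖ ^ 0 * ga w + ‖w‖ ^ 2 * ga w) :=
    ((g.int 0).add (g.int 2)).const_mul C
  refine h0.mono' (hF.mul g.cont).aestronglyMeasurable (Filter.Eventually.of_forall fun w => ?_)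
  rw [norm_mul, Real.norm_eq_abs, Real.norm_eq_abs, abs_of_pos (g.pos w)]
  calc |F w| * ga w ≤ C * (1 + ‖w‖ ^ 2) * ga w := mul_le_mul_of_nonneg_right (hb w) (g.pos w).le
    _ = C * (‖w‖ ^ 0 * ga w + ‖w‖ ^ 2 * ga w) := by ring

/-- differentiation under the integral -/
theorem hasG (V : Eu κ → ℝ) (hV : Continuous V) (hb : ∀ u, |V u| ≤ 1) (g : GF κ) (p : Eu κ) :
    HasFDerivAt (fun p => ∫ u, V u * ga (u - p))
      (∫ u, (V u * ga (u - p)) • innerSL ℝ (u - p)) p := by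
  set Z : ℝ := ∫ z : Eu κ, Real.exp (-(‖z‖ ^ 2 / 2)) with hZ
  have hZ0 : 0 ≤ Z := integral_nonneg fun z => (Real.exp_pos _).le
  have hga : ∀ w : Eu κ, ga w = Real.exp (-(‖w‖ ^ 2 / 2)) / Z := fun w => rfl
  have hcV : ∀ q : Eu κ, Continuous fun u => V u * ga (u - q) := fun q =>
    hV.mul (g.cont.comp (continuous_id.sub continuous_const))
  refine hasFDerivAt_integral_of_dominated_of_fderiv_le (𝕜 := ℝ) (s := Metric.ball p 1)
    (F := fun (p u : Eu κ) => V u * ga (u - p))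
    (F' := fun (p u : Eu κ) => (V u * ga (u - p)) • innerSL ℝ (u - p))
    (bound := fun u => Real.exp (1 / 4) * Z⁻¹ * Real.exp (-(‖u - p‖ ^ 2 / 8)))
    (Metric.ball_mem_nhds p one_pos) ?_ ?_ ?_ ?_ ?_ ?_
  · exact Filter.Eventually.of_forall fun q => (hcV q).aestronglyMeasurable
  · have h0 : Integrable fun w : Eu κ => ga w := by simpa using g.int 0
    have h1 : Integrable fun u : Eu κ => ga (u - p) := h0.comp_sub_right p
    refine h1.mono' (hcV p).aestronglyMeasurable (Filter.Eventually.of_forall fun u => ?_)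
    rw [norm_mul, Real.norm_eq_abs, Real.norm_eq_abs, abs_of_pos (g.pos _)]
    calc |V u| * ga (u - p) ≤ 1 * ga (u - p) := mul_le_mul_of_nonneg_right (hb u) (g.pos _).le
      _ = ga (u - p) := one_mul _
  · refine Continuous.aestronglyMeasurable ?_
    exact (hcV p).smul ((innerSL ℝ).continuous.comp (continuous_id.sub continuous_const))
  · refine Filter.Eventually.of_forall fun u q hq => ?_
    rw [norm_smul, innerSL_apply_norm, norm_mul, Real.norm_eq_abs, Real.norm_eq_abs,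
      abs_of_pos (g.pos _), hga]
    set s := ‖u - q‖ with hs
    set r := ‖u - p‖ with hr
    have hs0 : 0 ≤ s := norm_nonneg _
    have hr0 : 0 ≤ r := norm_nonneg _
    have hrs : r ≤ s + 1 := by
      have h5 : ‖q - p‖ < 1 := by rwa [Metric.mem_ball, dist_eq_norm] at hq
      have h6 : u - p = (u - q) + (q - p) := by abel
      calc r = ‖(u - q) + (q - p)‖ := by rw [hr, h6]
        _ ≤ s + ‖q - p‖ := norm_add_le _ _
        _ ≤ s + 1 := by linarith
    have h1 : s ≤ Real.exp (s ^ 2 / 4) := by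
      have := Real.add_one_le_exp (s ^ 2 / 4)
      nlinarith [sq_nonneg (s - 2)]
    have h2 : Real.exp (-(s ^ 2 / 2)) * s ≤ Real.exp (1 / 4) * Real.exp (-(r ^ 2 / 8)) := by
      calc Real.exp (-(s ^ 2 / 2)) * s ≤ Real.exp (-(s ^ 2 / 2)) * Real.exp (s ^ 2 / 4) :=
            mul_le_mul_of_nonneg_left h1 (Real.exp_pos _).le
        _ = Real.exp (-(s ^ 2 / 4)) := by rw [← Real.exp_add]; congr 1; ring
        _ ≤ Real.exp (1 / 4 + -(r ^ 2 / 8)) := by
            apply Real.exp_le_exp.2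
            nlinarith [sq_nonneg (s - 1)]
        _ = _ := by rw [Real.exp_add]
    calc |V u| * (Real.exp (-(s ^ 2 / 2)) / Z) * s
        ≤ 1 * (Real.exp (-(s ^ 2 / 2)) / Z) * s := by
          refine mul_le_mul_of_nonneg_right (mul_le_mul_of_nonneg_right (hb u) ?_) hs0
          exact div_nonneg (Real.exp_pos _).le hZ0
      _ = Z⁻¹ * (Real.exp (-(s ^ 2 / 2)) * s) := by rw [div_eq_mul_inv]; ring
      _ ≤ Z⁻¹ * (Real.exp (1 / 4) * Real.exp (-(r ^ 2 / 8))) :=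
          mul_le_mul_of_nonneg_left h2 (inv_nonneg.2 hZ0)
      _ = _ := by ring
  · exact (int_eight p).const_mul _
  · refine Filter.Eventually.of_forall fun u q _ => ?_
    have h := ptd (V u / Z) u q
    have e1 : (fun p : Eu κ => V u / Z * Real.exp (-(‖u - p‖ ^ 2 / 2))) =
        fun p => V u * ga (u - p) := by
      funext p
      rw [hga]
      ring
    have e2 : V u / Z * Real.exp (-(‖u - q‖ ^ 2 / 2)) = V u * ga (u - q) := congrFun e1 q
    rw [e1, e2] at h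
    exact h

theorem Nn_eq (σ : ℝ) (hσ : 0 < σ) (v : Eu κ → ℝ) (x : Eu κ) :
    Nn σ v x = ∫ u, v (σ • u) * ga (u - σ⁻¹ • x) := by
  unfold Nn
  rw [← integral_sub_right_eq_self (fun w : Eu κ => v (x + σ • w) * ga w) (σ⁻¹ • x)]
  refine integral_congr_ae (Filter.Eventually.of_forall fun u => ?_)
  simp only
  rw [smul_sub, smul_smul, mul_inv_cancel₀ hσ.ne', one_smul, add_sub_cancel]

/-- the gradient as an integral -/
noncomputable def Dn (σ : ℝ) (v : Eu κ → ℝ) (x : Eu κ) : Eu κ →L[ℝ] ℝ :=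
  σ⁻¹ • ∫ w, (v (x + σ • w) * ga w) • innerSL ℝ w

theorem hasN (σ : ℝ) (hσ : 0 < σ) (v : Eu κ → ℝ) (hv : Continuous v) (hb : ∀ u, |v u| ≤ 1)
    (g : GF κ) (x : Eu κ) : HasFDerivAt (Nn σ v) (Dn σ v x) x := by
  have h1 := hasG (fun u => v (σ • u)) (hv.comp (continuous_const_smul σ)) (fun u => hb _) g
    (σ⁻¹ • x)
  have h2 : HasFDerivAt (fun x : Eu κ => σ⁻¹ • x) (σ⁻¹ • ContinuousLinearMap.id ℝ (Eu κ)) x :=
    (hasFDerivAt_id x).const_smul σ⁻¹
  have h3 := h1.comp x h2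
  have e : Nn σ v = (fun p => ∫ u, v (σ • u) * ga (u - p)) ∘ fun x : Eu κ => σ⁻¹ • x := by
    funext y
    exact Nn_eq σ hσ v y
  rw [e]
  refine h3.congr_fderiv ?_
  unfold Dn
  rw [← integral_sub_right_eq_self (fun w : Eu κ => (v (x + σ • w) * ga w) • innerSL ℝ w)
    (σ⁻¹ • x)]
  have e2 : ∀ u : Eu κ, x + σ • (u - σ⁻¹ • x) = σ • u := fun u => by
    rw [smul_sub, smul_smul, mul_inv_cancel₀ hσ.ne', one_smul, add_sub_cancel]
  simp only [e2]
  rw [ContinuousLinearMap.comp_smul, ContinuousLinearMap.comp_id]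

theorem Dn_apply (σ : ℝ) (v : Eu κ → ℝ) (hv : Continuous v) (hb : ∀ u, |v u| ≤ 1)
    (g : GF κ) (x t : Eu κ) :
    Dn σ v x t = σ⁻¹ * ∫ w, v (x + σ • w) * ⟪t, w⟫_ℝ * ga w := by
  have hc : Continuous fun w : Eu κ => v (x + σ • w) := hv.comp (by fun_prop)
  have hi : Integrable fun w : Eu κ => (v (x + σ • w) * ga w) • innerSL ℝ w := by
    have h1 : Integrable fun w : Eu κ => ‖w‖ ^ 1 * ga w := g.int 1
    refine h1.mono' ?_ (Filter.Eventually.of_forall fun w => ?_)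
    · exact ((hc.mul g.cont).smul (innerSL ℝ).continuous).aestronglyMeasurable
    · rw [norm_smul, innerSL_apply_norm, norm_mul, Real.norm_eq_abs, Real.norm_eq_abs,
        abs_of_pos (g.pos _), pow_one, mul_comm ‖w‖]
      refine mul_le_mul_of_nonneg_right ?_ (norm_nonneg _)
      calc |v (x + σ • w)| * ga w ≤ 1 * ga w := mul_le_mul_of_nonneg_right (hb _) (g.pos _).le
        _ = ga w := one_mul _
  unfold Dn
  rw [_root_.smul_apply, ContinuousLinearMap.integral_apply hi, smul_eq_mul]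
  congr 1
  refine integral_congr_ae (Filter.Eventually.of_forall fun w => ?_)
  simp only [_root_.smul_apply, innerSL_apply_apply, smul_eq_mul]
  rw [real_inner_comm]
  ring

/-- Cauchy-Schwarz for the Gaussian measure -/
theorem GF.cs (g : GF κ) {F : Eu κ → ℝ} (hF : Continuous F) {M : ℝ} (hb : ∀ w, |F w| ≤ M)
    (t : Eu κ) : (∫ w, F w * ⟪t, w⟫_ℝ * ga w) ^ 2 ≤ (∫ w, F w ^ 2 * ga w) * ‖t‖ ^ 2 := by
  have hM : 0 ≤ M := (abs_nonneg _).trans (hb 0)
  have hin : ∀ w : Eu κ, |⟪t, w⟫_ℝ| ≤ ‖t‖ * ‖w‖ := fun w => abs_real_inner_le_norm t w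
  have ht0 : 0 ≤ ‖t‖ := norm_nonneg t
  have i1 : Integrable fun w : Eu κ => F w ^ 2 * ga w :=
    g.intg (hF.pow 2) (C := M ^ 2) fun w => by
      rw [abs_pow]
      have : |F w| ^ 2 ≤ M ^ 2 := pow_le_pow_left₀ (abs_nonneg _) (hb w) 2
      nlinarith [sq_nonneg M, sq_nonneg ‖w‖, mul_nonneg (sq_nonneg M) (sq_nonneg ‖w‖)]
  have i2 : Integrable fun w : Eu κ => F w * ⟪t, w⟫_ℝ * ga w :=
    g.intg (hF.mul (by fun_prop)) (C := M * ‖t‖) fun w => by
      rw [abs_mul]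
      have h1 : |F w| * |⟪t, w⟫_ℝ| ≤ M * (‖t‖ * ‖w‖) :=
        mul_le_mul (hb w) (hin w) (abs_nonneg _) hM
      have h2 : 0 ≤ M * ‖t‖ := mul_nonneg hM ht0
      have h3 : ‖w‖ ≤ 1 + ‖w‖ ^ 2 := by nlinarith [sq_nonneg (‖w‖ - 1), norm_nonneg w]
      calc |F w| * |⟪t, w⟫_ℝ| ≤ M * ‖t‖ * ‖w‖ := by linarith
        _ ≤ M * ‖t‖ * (1 + ‖w‖ ^ 2) := mul_le_mul_of_nonneg_left h3 h2
  have i3 : Integrable fun w : Eu κ => ⟪t, w⟫_ℝ * ⟪t, w⟫_ℝ * ga w :=
    g.intg (by fun_prop) (C := ‖t‖ ^ 2) fun w => by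
      rw [abs_mul]
      have h1 : |⟪t, w⟫_ℝ| * |⟪t, w⟫_ℝ| ≤ (‖t‖ * ‖w‖) * (‖t‖ * ‖w‖) :=
        mul_le_mul (hin w) (hin w) (abs_nonneg _) (by positivity)
      nlinarith [sq_nonneg ‖t‖]
  have key : ∀ l : ℝ, 0 ≤ (∫ w, F w ^ 2 * ga w) - 2 * l * (∫ w, F w * ⟪t, w⟫_ℝ * ga w) +
      l ^ 2 * ‖t‖ ^ 2 := by
    intro l
    have h1 : 0 ≤ ∫ w, (F w - l * ⟪t, w⟫_ℝ) ^ 2 * ga w :=
      integral_nonneg fun w => mul_nonneg (sq_nonneg _) (g.pos w).le
    have h2 : ∫ w, (F w - l * ⟪t, w⟫_ℝ) ^ 2 * ga w = (∫ w, F w ^ 2 * ga w) -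
        2 * l * (∫ w, F w * ⟪t, w⟫_ℝ * ga w) + l ^ 2 * ‖t‖ ^ 2 := by
      have e : (fun w : Eu κ => (F w - l * ⟪t, w⟫_ℝ) ^ 2 * ga w) = fun w =>
          (F w ^ 2 * ga w - 2 * l * (F w * ⟪t, w⟫_ℝ * ga w)) +
            l ^ 2 * (⟪t, w⟫_ℝ * ⟪t, w⟫_ℝ * ga w) := by
        funext w
        ring
      have i12 : Integrable fun w : Eu κ => F w ^ 2 * ga w - 2 * l * (F w * ⟪t, w⟫_ℝ * ga w) :=
        i1.sub (i2.const_mul _)
      rw [e, integral_add i12 (i3.const_mul _), integral_sub i1 (i2.const_mul _),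
        integral_const_mul, integral_const_mul, g.cov t t, real_inner_self_eq_norm_sq]
    rwa [h2] at h1
  exact KH.cs key

end aux

/-- **gradient of a Gaussian average** -/
theorem t_grad (h : S_gauss) : S_grad := by
  intro κ _ σ L v hσ hL hv1 hvL
  have g : GF κ := GF.of h
  have hv : Continuous v := by
    have : LipschitzWith (Real.toNNReal L) v := LipschitzWith.of_dist_le_mul fun x y => by
      rw [Real.coe_toNNReal L hL, Real.dist_eq, dist_eq_norm]
      exact hvL x y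
    exact this.continuous
  have hc : ∀ x : Eu κ, Continuous fun w : Eu κ => v (x + σ • w) := fun x => hv.comp (by fun_prop)
  have hD : ∀ x, HasFDerivAt (Nn σ v) (Dn σ v x) x := fun x => hasN σ hσ v hv hv1 g x
  have hfd : ∀ x, fderiv ℝ (Nn σ v) x = Dn σ v x := fun x => (hD x).fderiv
  have hg0 : Integrable fun w : Eu κ => ga w := by simpa using g.int 0
  have hvi : ∀ x : Eu κ, Integrable fun w : Eu κ => v (x + σ • w) * ga w := fun x =>
    g.intg (hc x) (C := 1) fun w => by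
      have := hv1 (x + σ • w)
      nlinarith [sq_nonneg ‖w‖]
  have hv2i : ∀ x : Eu κ, Integrable fun w : Eu κ => v (x + σ • w) ^ 2 * ga w := fun x =>
    g.intg ((hc x).pow 2) (C := 1) fun w => by
      have := hv1 (x + σ • w)
      rw [abs_pow]
      have h2 : |v (x + σ • w)| ^ 2 ≤ 1 := pow_le_one₀ (abs_nonneg _) this
      nlinarith [sq_nonneg ‖w‖]
  have hbd : ∀ x, |Nn σ v x| ≤ 1 := by
    intro x
    unfold Nn
    rw [← Real.norm_eq_abs, ← g.one]
    refine norm_integral_le_of_norm_le hg0 (Filter.Eventually.of_forall fun w => ?_)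
    rw [norm_mul, Real.norm_eq_abs, Real.norm_eq_abs, abs_of_pos (g.pos _)]
    calc |v (x + σ • w)| * ga w ≤ 1 * ga w := mul_le_mul_of_nonneg_right (hv1 _) (g.pos _).le
      _ = ga w := one_mul _
  have hlipN : ∀ x y, |Nn σ v x - Nn σ v y| ≤ L * ‖x - y‖ := by
    intro x y
    unfold Nn
    rw [← integral_sub (hvi x) (hvi y), ← Real.norm_eq_abs]
    have h1 : L * ‖x - y‖ = ∫ w : Eu κ, L * ‖x - y‖ * ga w := by
      rw [integral_const_mul, g.one, mul_one]
    rw [h1]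
    refine norm_integral_le_of_norm_le (hg0.const_mul _) (Filter.Eventually.of_forall fun w => ?_)
    rw [← sub_mul, norm_mul, Real.norm_eq_abs, Real.norm_eq_abs, abs_of_pos (g.pos _)]
    refine mul_le_mul_of_nonneg_right ?_ (g.pos _).le
    have := hvL (x + σ • w) (y + σ • w)
    rwa [add_sub_add_right_eq_sub] at this
  have hDL : ∀ x, ‖Dn σ v x‖ ≤ L := fun x =>
    (hD x).le_of_lip' hL (Filter.Eventually.of_forall fun y => by
      rw [Real.norm_eq_abs]
      exact hlipN y x)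
  have happ : ∀ x t, Dn σ v x t = σ⁻¹ * ∫ w, v (x + σ • w) * ⟪t, w⟫_ℝ * ga w :=
    fun x t => Dn_apply σ v hv hv1 g x t
  have hvti : ∀ x t : Eu κ, Integrable fun w : Eu κ => v (x + σ • w) * ⟪t, w⟫_ℝ * ga w := by
    intro x t
    refine g.intg ((hc x).mul (by fun_prop)) (C := ‖t‖) fun w => ?_
    rw [abs_mul]
    have h1 : |v (x + σ • w)| * |⟪t, w⟫_ℝ| ≤ 1 * (‖t‖ * ‖w‖) :=
      mul_le_mul (hv1 _) (abs_real_inner_le_norm t w) (abs_nonneg _) zero_le_one
    have h3 : ‖w‖ ≤ 1 + ‖w‖ ^ 2 := by nlinarith [sq_nonneg (‖w‖ - 1), norm_nonneg w]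
    calc |v (x + σ • w)| * |⟪t, w⟫_ℝ| ≤ ‖t‖ * ‖w‖ := by linarith
      _ ≤ ‖t‖ * (1 + ‖w‖ ^ 2) := mul_le_mul_of_nonneg_left h3 (norm_nonneg _)
  have hDlip : ∀ x y, ‖Dn σ v x - Dn σ v y‖ ≤ L / σ * ‖x - y‖ := by
    intro x y
    refine ContinuousLinearMap.opNorm_le_bound _ (by positivity) fun t => ?_
    rw [_root_.sub_apply, happ, happ, ← mul_sub, ← integral_sub (hvti x t) (hvti y t)]
    have e : (fun w : Eu κ => v (x + σ • w) * ⟪t, w⟫_ℝ * ga w - v (y + σ • w) * ⟪t, w⟫_ℝ * ga w) =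
        fun w => (v (x + σ • w) - v (y + σ • w)) * ⟪t, w⟫_ℝ * ga w := by
      funext w
      ring
    rw [e]
    have hcs := g.cs (F := fun w => v (x + σ • w) - v (y + σ • w)) ((hc x).sub (hc y)) (M := 2)
      (fun w => by
        have h1 := abs_le.1 (hv1 (x + σ • w))
        have h2 := abs_le.1 (hv1 (y + σ • w))
        rw [abs_le]
        constructor <;> linarith [h1.1, h1.2, h2.1, h2.2]) t
    have hF2 : ∫ w, (v (x + σ • w) - v (y + σ • w)) ^ 2 * ga w ≤ (L * ‖x - y‖) ^ 2 := by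
      have h1 : (L * ‖x - y‖) ^ 2 = ∫ w : Eu κ, (L * ‖x - y‖) ^ 2 * ga w := by
        rw [integral_const_mul, g.one, mul_one]
      rw [h1]
      refine integral_mono_of_nonneg (Filter.Eventually.of_forall fun w =>
        mul_nonneg (sq_nonneg _) (g.pos w).le) (hg0.const_mul _)
        (Filter.Eventually.of_forall fun w => ?_)
      refine mul_le_mul_of_nonneg_right ?_ (g.pos _).le
      have := hvL (x + σ • w) (y + σ • w)
      rw [add_sub_add_right_eq_sub] at this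
      calc (v (x + σ • w) - v (y + σ • w)) ^ 2 = |v (x + σ • w) - v (y + σ • w)| ^ 2 :=
            (sq_abs _).symm
        _ ≤ (L * ‖x - y‖) ^ 2 := pow_le_pow_left₀ (abs_nonneg _) this 2
    have h4 : (∫ w, (v (x + σ • w) - v (y + σ • w)) * ⟪t, w⟫_ℝ * ga w) ^ 2 ≤
        (L * ‖x - y‖ * ‖t‖) ^ 2 := by
      calc _ ≤ (∫ w, (v (x + σ • w) - v (y + σ • w)) ^ 2 * ga w) * ‖t‖ ^ 2 := hcs
        _ ≤ (L * ‖x - y‖) ^ 2 * ‖t‖ ^ 2 := mul_le_mul_of_nonneg_right hF2 (sq_nonneg _)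
        _ = _ := by ring
    have h5 := abs_le_of_sq_le_sq h4 (by positivity)
    rw [norm_mul, Real.norm_eq_abs, Real.norm_eq_abs, abs_of_pos (inv_pos.2 hσ)]
    calc σ⁻¹ * |∫ w, (v (x + σ • w) - v (y + σ • w)) * ⟪t, w⟫_ℝ * ga w|
        ≤ σ⁻¹ * (L * ‖x - y‖ * ‖t‖) := mul_le_mul_of_nonneg_left
          h5 (inv_pos.2 hσ).le
      _ = _ := by rw [div_eq_mul_inv]; ring
  refine ⟨?_, hbd, fun x => by rw [hfd]; exact hDL x, fun x y => by rw [hfd, hfd]; exact hDlip x y,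
    ?_⟩
  · rw [contDiff_one_iff_fderiv]
    refine ⟨fun x => (hD x).differentiableAt, ?_⟩
    have e : fderiv ℝ (Nn σ v) = Dn σ v := funext hfd
    rw [e]
    have : LipschitzWith (Real.toNNReal (L / σ)) (Dn σ v) :=
      LipschitzWith.of_dist_le_mul fun x y => by
        rw [Real.coe_toNNReal _ (by positivity), dist_eq_norm, dist_eq_norm]
        exact hDlip x y
    exact this.continuous
  · intro x
    rw [hfd]
    set m := Nn σ v x with hm
    have hm' : m = ∫ w, v (x + σ • w) * ga w := rfl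
    have hm1 : |m| ≤ 1 := hbd x
    have hA : ∫ w, (v (x + σ • w) - m) ^ 2 * ga w = Nn σ (fun y => v y ^ 2) x - m ^ 2 := by
      have e : (fun w : Eu κ => (v (x + σ • w) - m) ^ 2 * ga w) = fun w =>
          v (x + σ • w) ^ 2 * ga w - 2 * m * (v (x + σ • w) * ga w) + m ^ 2 * ga w := by
        funext w
        ring
      have i12 : Integrable fun w : Eu κ =>
          v (x + σ • w) ^ 2 * ga w - 2 * m * (v (x + σ • w) * ga w) :=
        (hv2i x).sub ((hvi x).const_mul _)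
      rw [e, integral_add i12 (hg0.const_mul _),
        integral_sub (hv2i x) ((hvi x).const_mul _), integral_const_mul, integral_const_mul, g.one,
        ← hm']
      unfold Nn
      ring
    set A := Nn σ (fun y => v y ^ 2) x - m ^ 2 with hAdef
    have hA0 : 0 ≤ A := by
      rw [← hA]
      exact integral_nonneg fun w => mul_nonneg (sq_nonneg _) (g.pos w).le
    have hbound : ‖Dn σ v x‖ ≤ σ⁻¹ * Real.sqrt A := by
      refine ContinuousLinearMap.opNorm_le_bound _ (by positivity) fun t => ?_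
      rw [happ]
      have hcs := g.cs (F := fun w => v (x + σ • w) - m) ((hc x).sub continuous_const) (M := 2)
        (fun w => by
          have h1 := abs_le.1 (hv1 (x + σ • w))
          have h2 := abs_le.1 hm1
          rw [abs_le]
          constructor <;> linarith [h1.1, h1.2, h2.1, h2.2]) t
      rw [hA] at hcs
      have hmt : Integrable fun w : Eu κ => m * (⟪t, w⟫_ℝ * ga w) := by
        refine Integrable.const_mul ?_ m
        refine g.intg (by fun_prop) (C := ‖t‖) fun w => ?_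
        have h3 : ‖w‖ ≤ 1 + ‖w‖ ^ 2 := by nlinarith [sq_nonneg (‖w‖ - 1), norm_nonneg w]
        calc |⟪t, w⟫_ℝ| ≤ ‖t‖ * ‖w‖ := abs_real_inner_le_norm t w
          _ ≤ ‖t‖ * (1 + ‖w‖ ^ 2) := mul_le_mul_of_nonneg_left h3 (norm_nonneg _)
      have e : ∫ w, (v (x + σ • w) - m) * ⟪t, w⟫_ℝ * ga w =
          ∫ w, v (x + σ • w) * ⟪t, w⟫_ℝ * ga w := by
        have e1 : (fun w : Eu κ => (v (x + σ • w) - m) * ⟪t, w⟫_ℝ * ga w) = fun w =>
            v (x + σ • w) * ⟪t, w⟫_ℝ * ga w - m * (⟪t, w⟫_ℝ * ga w) := by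
          funext w
          ring
        rw [e1, integral_sub (hvti x t) hmt, integral_const_mul, g.mean t, mul_zero, sub_zero]
      rw [e] at hcs
      have h5 : |∫ w, v (x + σ • w) * ⟪t, w⟫_ℝ * ga w| ≤ Real.sqrt A * ‖t‖ := by
        refine abs_le_of_sq_le_sq ?_ (by positivity)
        rw [mul_pow, Real.sq_sqrt hA0]
        exact hcs
      rw [norm_mul, Real.norm_eq_abs, Real.norm_eq_abs, abs_of_pos (inv_pos.2 hσ), mul_assoc]
      exact mul_le_mul_of_nonneg_left h5 (inv_pos.2 hσ).le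
    have h6 : σ * ‖Dn σ v x‖ ≤ Real.sqrt A := by
      calc σ * ‖Dn σ v x‖ ≤ σ * (σ⁻¹ * Real.sqrt A) := mul_le_mul_of_nonneg_left hbound hσ.le
        _ = Real.sqrt A := by rw [← mul_assoc, mul_inv_cancel₀ hσ.ne', one_mul]
    calc σ ^ 2 * ‖Dn σ v x‖ ^ 2 = (σ * ‖Dn σ v x‖) ^ 2 := by ring
      _ ≤ Real.sqrt A ^ 2 := pow_le_pow_left₀ (by positivity) h6 2
      _ = A := Real.sq_sqrt hA0

end Pool.Agent.W327.KH
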